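import Mathlib
import Pool.Agent.Helper18.SK.Defs

/-!
# Euler's theorem for directed multigraphs (packet EU of MP_449ba1_co)
-/

set_option autoImplicit false

namespace Pool.Agent.Helper16.SK

open Pool.Agent.Helper18.SK

variable {V E : Type} {src tgt : E → V}

theorem isWalk_append (l₁ l₂ : List E) (p q : V) :
    IsWalk src tgt p q (l₁ ++ l₂) ↔ ∃ r, IsWalk src tgt p r l₁ ∧ IsWalk src tgt r q l₂ := by
  induction l₁ generalizing p with
  | nil => simp [IsWalk]
  | cons e l ih => simp [IsWalk, ih, and_assoc]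

theorem isWalk_append_intro {l₁ l₂ : List E} {p r q : V}
    (h₁ : IsWalk src tgt p r l₁) (h₂ : IsWalk src tgt r q l₂) :
    IsWalk src tgt p q (l₁ ++ l₂) := (isWalk_append l₁ l₂ p q).2 ⟨r, h₁, h₂⟩

theorem walk_bal (l : List E) (p q : V) (h : IsWalk src tgt p q l) :
    q ::ₘ (l : Multiset E).map src = p ::ₘ (l : Multiset E).map tgt := by
  induction l generalizing p with
  | nil =>
    have h' : p = q := h
    simp [h']
  | cons e l ih =>
    obtain ⟨h1, h2⟩ := h
    have h3 := ih _ h2
    rw [← Multiset.cons_coe, Multiset.map_cons, Multiset.map_cons, Multiset.cons_swap, h3, h1]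

/-- A trail in what remains of a balanced multigraph can be completed. -/
theorem trail_aux (n : ℕ) : ∀ (R : Multiset E), R.card = n → ∀ q p : V,
    p ::ₘ R.map src = q ::ₘ R.map tgt →
    ∃ l : List E, IsWalk src tgt q p l ∧ (l : Multiset E) ≤ R := by
  classical
  induction n with
  | zero =>
    intro R hR q p h
    have hR0 : R = 0 := Multiset.card_eq_zero.1 hR
    subst hR0
    have hpq : p = q := by simpa using h
    exact ⟨[], hpq.symm, by simp⟩
  | succ n ih =>
    intro R hR q p h
    by_cases hpq : q = p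
    · exact ⟨[], hpq, by simp⟩
    · have hq : q ∈ p ::ₘ R.map src := by rw [h]; exact Multiset.mem_cons_self _ _
      rw [Multiset.mem_cons] at hq
      rcases hq with hq | hq
      · exact absurd hq hpq
      · obtain ⟨e, he, heq⟩ := Multiset.mem_map.1 hq
        obtain ⟨R', rfl⟩ := Multiset.exists_cons_of_mem he
        have hc : R'.card = n := by simpa using hR
        have h2 : p ::ₘ R'.map src = tgt e ::ₘ R'.map tgt := by
          rw [Multiset.map_cons, Multiset.map_cons, heq, Multiset.cons_swap] at h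
          exact (Multiset.cons_inj_right q).1 h
        obtain ⟨l, hl, hle⟩ := ih R' hc _ _ h2
        refine ⟨e :: l, ⟨heq, hl⟩, ?_⟩
        rw [← Multiset.cons_coe]
        exact Multiset.cons_le_cons e hle

theorem closed_aux (M : Multiset E) (hM : M.map src = M.map tgt) (e : E) (he : e ∈ M) :
    ∃ l : List E, IsWalk src tgt (src e) (src e) (e :: l) ∧ ((e :: l : List E) : Multiset E) ≤ M := by
  obtain ⟨R, rfl⟩ := Multiset.exists_cons_of_mem he
  rw [Multiset.map_cons, Multiset.map_cons] at hM
  obtain ⟨l, hl, hle⟩ := trail_aux (src := src) (tgt := tgt) R.card R rfl (tgt e) (src e) hM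
  refine ⟨l, ⟨rfl, hl⟩, ?_⟩
  rw [← Multiset.cons_coe]
  exact Multiset.cons_le_cons e hle

theorem meet_aux (M R : Multiset E) (e₀ : E) (l : List E)
    (hMR : M = ((e₀ :: l : List E) : Multiset E) + R)
    (hw : IsWalk src tgt (tgt e₀) (src e₀) l) (a : E) (ha : a ∈ R) (m : List E) :
    ∀ v : V, IsWalk src tgt v (src a) m → (∀ x ∈ m, x ∈ M) →
    (∃ l₁ l₃, l = l₁ ++ l₃ ∧ IsWalk src tgt (tgt e₀) v l₁ ∧ IsWalk src tgt v (src e₀) l₃) →
    ∃ b ∈ R, ∃ l₁ l₃, l = l₁ ++ l₃ ∧ IsWalk src tgt (tgt e₀) (src b) l₁ ∧
      IsWalk src tgt (src b) (src e₀) l₃ := by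
  classical
  induction m with
  | nil =>
    intro v hv _ h
    have hv' : v = src a := hv
    subst hv'
    exact ⟨a, ha, h⟩
  | cons e m ih =>
    intro v hv hm h
    obtain ⟨hv1, hv2⟩ := hv
    by_cases heR : e ∈ R
    · subst hv1
      exact ⟨e, heR, h⟩
    · have heM : e ∈ M := hm e (by simp)
      rw [hMR, Multiset.mem_add] at heM
      rcases heM with heM | heM
      · apply ih (tgt e) hv2 (fun x hx => hm x (List.mem_cons_of_mem _ hx))
        rw [Multiset.mem_coe, List.mem_cons] at heM
        rcases heM with heM | heM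
        · subst heM
          exact ⟨[], l, rfl, rfl, hw⟩
        · obtain ⟨s, t, rfl⟩ := List.append_of_mem heM
          obtain ⟨r, hr1, hr2⟩ := (isWalk_append _ _ _ _).1 hw
          obtain ⟨hr3, hr4⟩ := hr2
          refine ⟨s ++ [e], t, by simp, ?_, hr4⟩
          exact isWalk_append_intro hr1 ⟨hr3, rfl⟩
      · exact absurd heM heR

/-- EU. Euler's theorem. -/
theorem eu : GEuler := by
  classical
  intro V E src tgt M hM hconn e₀ he₀
  have key : ∀ n : ℕ, ∀ l : List E, IsWalk src tgt (src e₀) (src e₀) (e₀ :: l) →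
      ((e₀ :: l : List E) : Multiset E) ≤ M → M.card ≤ n + (e₀ :: l).length →
      ∃ l : List E, IsWalk src tgt (src e₀) (src e₀) (e₀ :: l) ∧
        ((e₀ :: l : List E) : Multiset E) = M := by
    intro n
    induction n with
    | zero =>
      intro l hl hle hc
      refine ⟨l, hl, Multiset.eq_of_le_of_card_le hle ?_⟩
      simpa using hc
    | succ n ih =>
      intro l hl hle hc
      by_cases hEq : ((e₀ :: l : List E) : Multiset E) = M
      · exact ⟨l, hl, hEq⟩
      · obtain ⟨R, hR⟩ := Multiset.le_iff_exists_add.1 hle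
        have hR0 : R ≠ 0 := by
          rintro rfl
          apply hEq
          rw [hR, add_zero]
        obtain ⟨a, ha⟩ := Multiset.exists_mem_of_ne_zero hR0
        have hb := walk_bal _ _ _ hl
        have hb' := (Multiset.cons_inj_right _).1 hb
        have hRb : R.map src = R.map tgt := by
          rw [hR, Multiset.map_add, Multiset.map_add, hb'] at hM
          exact add_left_cancel hM
        obtain ⟨_, hl2⟩ := hl
        have haM : a ∈ M := by rw [hR]; exact Multiset.mem_add.2 (Or.inr ha)
        obtain ⟨m, hm1, hm2⟩ := hconn e₀ he₀ a haM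
        obtain ⟨b, hbR, l₁, l₃, hl13, hw1, hw3⟩ :=
          meet_aux M R e₀ l hR hl2 a ha m (tgt e₀) hm1 hm2 ⟨[], l, rfl, rfl, hl2⟩
        obtain ⟨l₂, hw2, hle2⟩ := closed_aux R hRb b hbR
        have hlnew : IsWalk src tgt (src e₀) (src e₀) (e₀ :: (l₁ ++ ((b :: l₂) ++ l₃))) :=
          ⟨rfl, isWalk_append_intro hw1 (isWalk_append_intro hw2 hw3)⟩
        have hcoe : ((e₀ :: (l₁ ++ ((b :: l₂) ++ l₃)) : List E) : Multiset E) =
            ((e₀ :: l : List E) : Multiset E) + ((b :: l₂ : List E) : Multiset E) := by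
          rw [Multiset.coe_add, Multiset.coe_eq_coe, hl13]
          rw [List.perm_iff_count]
          intro x
          simp only [List.count_cons, List.count_append]
          omega
        have hle' : ((e₀ :: (l₁ ++ ((b :: l₂) ++ l₃)) : List E) : Multiset E) ≤ M := by
          rw [hcoe, hR]
          exact add_le_add_right hle2 _
        refine ih _ hlnew hle' ?_
        subst hl13
        simp only [List.length_cons, List.length_append] at hc ⊢
        omega
  obtain ⟨l, hl, hle⟩ := closed_aux M hM e₀ he₀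
  exact key M.card l hl hle (by omega)

end Pool.Agent.Helper16.SK
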